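import Pool.Agent.Y667.PA.Pair
import Pool.Agent.Y655.ISO.Fin
import Pool.Agent.Y508.ISO.Alg

/-!
# Project ISO (helper667): descent by 2-isogenies, assembly
-/

set_option autoImplicit false

namespace Pool.Agent.Y667.ISO

open Finset Filter Pool.Agent.W262.RK Pool.Agent.W307.RT Pool.Agent.W307.RS Pool.Agent.W307.SE
  Pool.Agent.W307.FK Pool.Agent.Y667.RP Pool.Agent.Y667.RZ Pool.Agent.Y667.MT
open Pool.Agent.Y285.RP Pool.Agent.Y285.RZ Pool.Agent.Y738.MT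
open Pool.Agent.Y667.PA (TPR pair_of transR)

/-- the parity of the sum of the dimensions for the model with the root `e` at the origin -/
def ParE (r : ℕ) (k : ℤ × ℤ) (e : ℤ) : Prop :=
  ∃ f1 f2 : ℕ, (F1 (3 * e) (3 * e ^ 2 + k.1)).ncard = 2 ^ f1 ∧
    (F1 (-2 * (3 * e)) ((3 * e) ^ 2 - 4 * (3 * e ^ 2 + k.1))).ncard = 2 ^ f2 ∧
    Even (r + f1 + f2)

/-- the property of the curves -/
def TIR (r : ℕ) (k : ℤ × ℤ) : Prop := TPR r k ∧
  ∀ e : ℤ, e ^ 3 + k.1 * e + k.2 = 0 → ParE r k e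

lemma parE_of {r D : ℕ} {s : Fin 3 → ℕ} (hs : HP s) {M : ℕ}
    {L : ℕ → Bool → Bool → Bool → Bool → Prop} {Q : ℕ}
    (h1 : (Q = 1 ∧ D = 0 ∧ M = ∏ j, s j ∧ L = LF s (sgF (s 0) (s 1) (∏ j, s j))) ∨
      (Q = 17 ∧ D = 1 ∧ M = 17 * ∏ j, s j ∧ L = L17 s (sgF (s 0) (s 1) (∏ j, s j))))
    (hev : Even (((∏ j, s j).primeFactors \ sgF (s 0) (s 1) (∏ j, s j)).card + D + r))
    {a b k : ℤ} (ha : a = Q * s 0) (hb : b = Q * s 1) (hk : a + b = 3 * k) (e : ℤ)
    (he : e ^ 3 + (cc a b k).1 * e + (cc a b k).2 = 0) : ParE r (cc a b k) e := by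
  have hloc := Pool.Agent.Y655.ISO.ISOLOC s hs Q M L (by
    rcases h1 with ⟨q1, -, q3, q4⟩ | ⟨q1, -, q3, q4⟩
    · exact Or.inl ⟨q1, q3, q4⟩
    · exact Or.inr ⟨q1, q3, q4⟩) a b ha hb
  have halg := Pool.Agent.Y508.ISO.ISOALG s hs D M L (by
    rcases h1 with ⟨-, q1, q3, q4⟩ | ⟨-, q1, q3, q4⟩
    · exact Or.inl ⟨q1, q3, q4⟩
    · exact Or.inr ⟨q1, q3, q4⟩)
  obtain ⟨l1, l2, l3, l4, l5, l6⟩ := hloc
  obtain ⟨⟨f1, f2, g1, g2, g3⟩, ⟨f3, f4, g4, g5, g6⟩, f5, f6, g7, g8, g9⟩ := halg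
  obtain ⟨n, hn⟩ : ∃ n, n = ((∏ j, s j).primeFactors \ sgF (s 0) (s 1) (∏ j, s j)).card := ⟨_, rfl⟩
  rw [← hn] at hev g3 g6 g9
  have par : ∀ u v : ℕ, Even (u + v + n + D) → Even (r + u + v) := by
    intro u v h
    obtain ⟨x, hx⟩ := h
    obtain ⟨y, hy⟩ := hev
    exact ⟨x + y - n - D, by omega⟩
  rw [cc_root hk] at he
  have hc1 : (cc a b k).1 = a * b - 3 * k ^ 2 := rfl
  unfold ParE
  rw [hc1]
  rcases mul_eq_zero.1 he with he | he
  · rcases mul_eq_zero.1 he with he | he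
    · have he' : e = -k := by linarith
      subst he'
      refine ⟨f1, f2, ?_, ?_, par _ _ g3⟩
      · rw [← g1, ← l1]
        congr 2
        · linarith
        · ring
      · rw [← g2, ← l2]
        congr 2
        · linarith
        · linear_combination (-(a + b) - 3 * k) * hk
    · have he' : e = a - k := by linarith
      subst he'
      refine ⟨f3, f4, ?_, ?_, par _ _ g6⟩
      · rw [← g4, ← l3]
        congr 2
        · linarith
        · linear_combination (-2 * a) * (-hk)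
      · rw [← g5, ← l4]
        congr 2
        · linarith
        · linear_combination (-(3 * k + 3 * a + b)) * hk
  · have he' : e = b - k := by linarith
    subst he'
    refine ⟨f5, f6, ?_, ?_, par _ _ g9⟩
    · rw [← g7, ← l5]
      congr 2
      · linarith
      · linear_combination (2 * b) * hk
    · rw [← g8, ← l6]
      congr 2
      · linarith
      · linear_combination (-(3 * k + 3 * b + a)) * hk

open Classical in
theorem curvesISO (r : ℕ) : ∃ c : ℝ, 0 < c ∧ ∃ H0 : ℕ, ∀ H : ℕ, H0 ≤ H →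
    c * ((Cv 2 H).card : ℝ) ≤ (((Cv 2 H).filter (TIR r)).card : ℝ) := by
  refine transR r (TIR r) fun X t ht h => ?_
  obtain ⟨s, hs, e0, e1, hkk, h | h⟩ := pair_of ht h
  · left
    refine ⟨h.1, fun e he => parE_of (D := 0) hs (Or.inl ⟨rfl, rfl, rfl, rfl⟩) h.2 ?_ ?_ ?_ e he⟩
    · rw [e0]; ring
    · rw [e1]; ring
    · rw [← e0, ← e1]; exact hkk
  · right
    refine ⟨h.1, fun e he => parE_of (D := 1) hs (Or.inr ⟨rfl, rfl, rfl, rfl⟩) h.2 ?_ ?_ ?_ e he⟩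
    · rw [e0]; ring
    · rw [e1]; ring
    · rw [← e0, ← e1]; linarith

end Pool.Agent.Y667.ISO
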