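import Pool.Agent.Y667.RZ.Stm
import Pool.Agent.Y655.RZ.Par3

/-!
# Project ISO (helper667): descent by 2-isogenies, statements of the parts
-/

set_option autoImplicit false

namespace Pool.Agent.Y667.ISO

open Finset Pool.Agent.W262.RK Pool.Agent.W307.RT Pool.Agent.W307.RS Pool.Agent.W307.SE
  Pool.Agent.W307.FK Pool.Agent.Y667.RP Pool.Agent.Y667.RZ

/-- the squarefree `b₁ ∣ b` for which `N² = b₁ M⁴ + a M² e² + (b / b₁) e⁴` is everywhere locally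
solvable -/
def F1 (a b : ℤ) : Set ℤ :=
  {b₁ : ℤ | Squarefree b₁ ∧ b₁ ∣ b ∧
    (∃ N M e : ℝ, (M ≠ 0 ∨ e ≠ 0) ∧
      N ^ 2 = (b₁ : ℝ) * M ^ 4 + (a : ℝ) * M ^ 2 * e ^ 2 + ((b / b₁ : ℤ) : ℝ) * e ^ 4) ∧
    ∀ (p : ℕ) [Fact p.Prime], ∃ N M e : Padic p, (M ≠ 0 ∨ e ≠ 0) ∧
      N ^ 2 = (b₁ : Padic p) * M ^ 4 + (a : Padic p) * M ^ 2 * e ^ 2
        + ((b / b₁ : ℤ) : Padic p) * e ^ 4}

/-- the squarefree integers with local conditions -/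
def GA (M : ℕ) (P : ℕ → Bool → Bool → Prop) : Set ℤ :=
  {x | Squarefree x ∧ (∀ q : ℕ, q.Prime → (q : ℤ) ∣ x → q ∣ 2 * M) ∧
    ∀ p ∈ M.primeFactors, P p (dv p x) (sgn p x)}

/-- the squarefree integers, squares over `ℚ_2` and `ℝ`, with local conditions -/
def GB (M : ℕ) (P : ℕ → Bool → Bool → Prop) : Set ℤ := {x | x ∈ GA M P ∧ 0 < x ∧ x % 8 = 1}

/-- the projections of the local conditions -/
def pr0 (L : ℕ → Bool → Bool → Bool → Bool → Prop) (p : ℕ) (v h : Bool) : Prop :=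
  ∃ w g, L p v w h g

def pr1 (L : ℕ → Bool → Bool → Bool → Bool → Prop) (p : ℕ) (w g : Bool) : Prop :=
  ∃ v h, L p v w h g

def pr2 (L : ℕ → Bool → Bool → Bool → Bool → Prop) (p : ℕ) (v' h' : Bool) : Prop :=
  ∃ v w h g, L p v w h g ∧ v' = xor v w ∧ h' = xor h g

/-- the classes with one trivial component -/
def in0 (L : ℕ → Bool → Bool → Bool → Bool → Prop) (p : ℕ) (w g : Bool) : Prop :=
  L p false w false g

def in1 (L : ℕ → Bool → Bool → Bool → Bool → Prop) (p : ℕ) (v h : Bool) : Prop :=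
  L p v false h false

def in2 (L : ℕ → Bool → Bool → Bool → Bool → Prop) (p : ℕ) (v h : Bool) : Prop :=
  L p v v h h

/-- the hypotheses on the triple -/
structure HP (s : Fin 3 → ℕ) : Prop where
  sq : Squarefree (∏ j, s j)
  odd : Odd (∏ j, s j)
  big : ∀ p : ℕ, p.Prime → p ∣ ∏ j, s j → 17 < p
  rel : (s 0 : ℤ) - s 1 = 32 * s 2
  m0 : s 0 % 8 = 1
  m1 : s 1 % 8 = 1
  n0 : s 0 % 17 = 1
  n1 : s 1 % 17 = 15

/-- **ISOLOC** (the Selmer groups of the isogenies for `a = D s₀`, `b = D s₁`). -/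
def St_ISOLOC : Prop := ∀ s : Fin 3 → ℕ, HP s → ∀ (D M : ℕ)
  (L : ℕ → Bool → Bool → Bool → Bool → Prop),
  (D = 1 ∧ M = ∏ j, s j ∧ L = LF s (sgF (s 0) (s 1) (∏ j, s j))) ∨
    (D = 17 ∧ M = 17 * ∏ j, s j ∧ L = L17 s (sgF (s 0) (s 1) (∏ j, s j))) →
  ∀ a b : ℤ, a = D * s 0 → b = D * s 1 →
    F1 (-(a + b)) (a * b) = GB M (pr0 L) ∧ F1 (2 * (a + b)) ((a - b) ^ 2) = GA M (in0 L) ∧
    F1 (2 * a - b) (a * (a - b)) = GA M (pr1 L) ∧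
      F1 (-2 * (2 * a - b)) (b ^ 2) = GB M (in1 L) ∧
    F1 (2 * b - a) (b * (b - a)) = GA M (pr2 L) ∧
      F1 (-2 * (2 * b - a)) (a ^ 2) = GB M (in2 L)

/-- **ISOALG** (the parity of the dimensions). -/
def St_ISOALG : Prop := ∀ s : Fin 3 → ℕ, HP s → ∀ (D M : ℕ)
  (L : ℕ → Bool → Bool → Bool → Bool → Prop),
  (D = 0 ∧ M = ∏ j, s j ∧ L = LF s (sgF (s 0) (s 1) (∏ j, s j))) ∨
    (D = 1 ∧ M = 17 * ∏ j, s j ∧ L = L17 s (sgF (s 0) (s 1) (∏ j, s j))) →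
    (∃ f1 f2 : ℕ, (GB M (pr0 L)).ncard = 2 ^ f1 ∧ (GA M (in0 L)).ncard = 2 ^ f2 ∧
      Even (f1 + f2 + ((∏ j, s j).primeFactors \ sgF (s 0) (s 1) (∏ j, s j)).card + D)) ∧
    (∃ f1 f2 : ℕ, (GA M (pr1 L)).ncard = 2 ^ f1 ∧ (GB M (in1 L)).ncard = 2 ^ f2 ∧
      Even (f1 + f2 + ((∏ j, s j).primeFactors \ sgF (s 0) (s 1) (∏ j, s j)).card + D)) ∧
    (∃ f1 f2 : ℕ, (GA M (pr2 L)).ncard = 2 ^ f1 ∧ (GB M (in2 L)).ncard = 2 ^ f2 ∧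
      Even (f1 + f2 + ((∏ j, s j).primeFactors \ sgF (s 0) (s 1) (∏ j, s j)).card + D))

end Pool.Agent.Y667.ISO
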